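import Mathlib

namespace Pool.Agent.Results.MP_be1d92_co.Unbdd

def ChainComplete (P : Type) [PartialOrder P] : Prop :=
  ∀ C : Set P, IsChain (· ≤ ·) C → C.Nonempty → (∃ s, IsLUB C s) ∧ (∃ i, IsGLB C i)

def Funneled {P : Type} [PartialOrder P] (S : Set P) (p q : P) : Prop :=
  ∀ C : Set P, Maximal (fun D : Set P => D ⊆ S ∧ IsChain (· ≤ ·) D) C → p ∈ C → q ∈ C

def Good {P : Type} [PartialOrder P] (S Q : Set P) : Prop :=
  Q ⊆ S ∧ ∀ p ∈ S, ∃! q, q ∈ Q ∧ Funneled S p q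

theorem comp_of_funneled {P : Type} [PartialOrder P] {S : Set P} {p q x : P} (h : Funneled S p q)
    (hp : p ∈ S) (hx : x ∈ S) (hc : x ≤ p ∨ p ≤ x) : x ≤ q ∨ q ≤ x := by
  obtain ⟨m, hm1, hm2⟩ := zorn_subset_nonempty {D : Set P | D ⊆ S ∧ IsChain (· ≤ ·) D}
    (fun c hc1 hc2 _ => ⟨⋃₀ c, ⟨Set.sUnion_subset fun t ht => (hc1 ht).1, by
      rintro a ⟨s, hs, ha⟩ b ⟨t, ht, hb⟩ hab
      rcases hc2.total hs ht with h | h
      · exact (hc1 ht).2 (h ha) hb hab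
      · exact (hc1 hs).2 ha (h hb) hab⟩, fun s hs => Set.subset_sUnion_of_mem hs⟩)
    {x, p} ⟨by rintro a (rfl | rfl) <;> assumption, by
      rintro a (rfl | rfl) b (rfl | rfl) hab
      · exact absurd rfl hab
      · exact hc
      · exact hc.symm
      · exact absurd rfl hab⟩
  exact hm2.prop.2.total (hm1 (by simp)) (h m hm2 (hm1 (by simp)))

@[ext] structure Pt (K : ℕ) where
  lev : Fin (K + 1)
  side : Bool
  pos : ℕ∞

instance (K : ℕ) : PartialOrder (Pt K) where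
  le p q := ((p.lev = q.lev ∧ p.side = q.side) ∨ p.lev < q.lev) ∧ p.pos ≤ q.pos
  le_refl p := ⟨Or.inl ⟨rfl, rfl⟩, le_rfl⟩
  le_trans p q r h1 h2 := ⟨by
    rcases h1.1 with ⟨a, b⟩ | a <;> rcases h2.1 with ⟨c, d⟩ | c
    · exact Or.inl ⟨a.trans c, b.trans d⟩
    · exact Or.inr (a ▸ c)
    · exact Or.inr (c ▸ a)
    · exact Or.inr (a.trans c), h1.2.trans h2.2⟩
  le_antisymm p q h1 h2 := by
    rcases h1.1 with ⟨a, b⟩ | a
    · exact Pt.ext a b (le_antisymm h1.2 h2.2)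
    · rcases h2.1 with ⟨c, _⟩ | c
      · exact absurd c (ne_of_gt a)
      · exact absurd c (not_lt.mpr a.le)

theorem le_def {K : ℕ} (p q : Pt K) :
    p ≤ q ↔ ((p.lev.1 = q.lev.1 ∧ p.side = q.side) ∨ p.lev.1 < q.lev.1) ∧ p.pos ≤ q.pos := by
  rw [← Fin.ext_iff]; rfl

theorem cc (K : ℕ) : ChainComplete (Pt K) := by
  intro C hC hne
  constructor
  · obtain ⟨_, ⟨p, hp, rfl⟩, hm⟩ := wellFounded_gt.has_min (Pt.lev '' C) (hne.image _)
    refine ⟨⟨p.lev, p.side, sSup (Pt.pos '' C)⟩, fun q hq => ⟨?_, le_sSup ⟨q, hq, rfl⟩⟩,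
      fun b hb => ⟨(hb hp).1, sSup_le ?_⟩⟩
    · have h1 := hm _ ⟨q, hq, rfl⟩
      rcases hC.total hq hp with h | h
      · exact h.1
      · rcases h.1 with ⟨a, b⟩ | a
        · exact Or.inl ⟨a.symm, b.symm⟩
        · exact absurd a h1
    · rintro _ ⟨q, hq, rfl⟩
      exact (hb hq).2
  · obtain ⟨_, ⟨p, hp, rfl⟩, hm⟩ := wellFounded_lt.has_min (Pt.lev '' C) (hne.image _)
    refine ⟨⟨p.lev, p.side, sInf (Pt.pos '' C)⟩, fun q hq => ⟨?_, sInf_le ⟨q, hq, rfl⟩⟩,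
      fun b hb => ⟨(hb hp).1, le_sInf ?_⟩⟩
    · have h1 := hm _ ⟨q, hq, rfl⟩
      rcases hC.total hp hq with h | h
      · exact h.1
      · rcases h.1 with ⟨a, b⟩ | a
        · exact Or.inl ⟨a.symm, b.symm⟩
        · exact absurd a h1
    · rintro _ ⟨q, hq, rfl⟩
      exact (hb hq).2

theorem fa (K : ℕ) (A : Set (Pt K)) (hA : IsAntichain (· ≤ ·) A) : A.Finite := by
  refine Set.Finite.of_finite_image (f := fun p => (p.lev, p.side)) (Set.toFinite _) ?_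
  intro p hp q hq h
  simp only [Prod.mk.injEq] at h
  by_contra hne
  rcases le_total p.pos q.pos with h1 | h1
  · exact hA hp hq hne ⟨Or.inl h, h1⟩
  · exact hA hq hp (Ne.symm hne) ⟨Or.inl ⟨h.1.symm, h.2.symm⟩, h1⟩

def A (K k : ℕ) : Set (Pt K) := {p | (k ≤ p.lev.1 ∨ p.pos = 0) ∧ (p.lev.1 + k ≤ K ∨ p.pos = ⊤)}

theorem step (K k : ℕ) (hk : 2 * (k + 1) ≤ K) (S Q : Set (Pt K)) (hS : A K k ⊆ S) (hQ : Good S Q) :
    A K (k + 1) ⊆ Q := by
  intro p hp
  have hpA : p ∈ A K k := ⟨hp.1.imp (fun h => by omega) id, hp.2.imp (fun h => by omega) id⟩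
  obtain ⟨q, ⟨hq1, hq2⟩, -⟩ := hQ.2 p (hS hpA)
  suffices h : q = p by rw [← h]; exact hq1
  have key : ∀ x ∈ A K k, (x ≤ p ∨ p ≤ x) → x ≤ q ∨ q ≤ x := fun x hx hc =>
    comp_of_funneled hq2 (hS hpA) (hS hx) hc
  have h0 := key p hpA (Or.inl le_rfl)
  have hl := p.lev.2
  have hl' := q.lev.2
  have tw : ∀ m : ℕ∞, ¬ ((⟨q.lev, !q.side, m⟩ : Pt K) ≤ q ∨ q ≤ ⟨q.lev, !q.side, m⟩) := by
    intro m
    simp [le_def]
  obtain ⟨hp1, hp2⟩ := hp
  rcases lt_trichotomy p.lev.1 q.lev.1 with h | h | h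
  · exfalso
    by_cases h1 : k ≤ q.lev.1
    · exact tw ⊤ (key _ ⟨Or.inl h1, Or.inr rfl⟩ (Or.inr ⟨Or.inr h, le_top⟩))
    · have h2 : p.pos = 0 := hp1.resolve_left (by omega)
      exact tw 0 (key _ ⟨Or.inr rfl, Or.inl (by show q.lev.1 + k ≤ K; omega)⟩
        (Or.inr ⟨Or.inr h, h2.le⟩))
  · have hs : p.side = q.side := by
      rcases h0 with h0 | h0 <;> rw [le_def] at h0 <;> rcases h0.1 with h1 | h1
      · exact h1.2
      · omega
      · exact h1.2.symm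
      · omega
    refine Pt.ext (Fin.ext h.symm) hs.symm ?_
    rcases lt_trichotomy p.pos q.pos with h2 | h2 | h2
    · exfalso
      have h3 : p.lev.1 + (k + 1) ≤ K := hp2.resolve_right (ne_top_of_lt h2)
      have := key ⟨⟨p.lev.1 + 1, by omega⟩, true, p.pos⟩
        ⟨hp1.imp (fun h => by show k ≤ p.lev.1 + 1; omega) id,
          Or.inl (by show p.lev.1 + 1 + k ≤ K; omega)⟩
        (Or.inr ((le_def _ _).mpr ⟨Or.inr (by simp), le_rfl⟩))
      rcases this with h4 | h4 <;> rw [le_def] at h4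
      · have := h4.1
        simp only at this
        omega
      · exact absurd h4.2 (not_le.mpr h2)
    · exact h2.symm
    · exfalso
      have h3 : k + 1 ≤ p.lev.1 := hp1.resolve_right (ne_of_gt (lt_of_le_of_lt (zero_le) h2))
      have := key ⟨⟨p.lev.1 - 1, by omega⟩, true, p.pos⟩
        ⟨Or.inl (by show k ≤ p.lev.1 - 1; omega),
          hp2.imp (fun h => by show p.lev.1 - 1 + k ≤ K; omega) id⟩
        (Or.inl ((le_def _ _).mpr ⟨Or.inr (by show p.lev.1 - 1 < p.lev.1; omega), le_rfl⟩))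
      rcases this with h4 | h4 <;> rw [le_def] at h4
      · exact absurd h4.2 (not_le.mpr h2)
      · have := h4.1
        simp only at this
        omega
  · exfalso
    by_cases h1 : q.lev.1 + k ≤ K
    · exact tw 0 (key _ ⟨Or.inr rfl, Or.inl h1⟩ (Or.inl ⟨Or.inr h, zero_le⟩))
    · have h2 : p.pos = ⊤ := hp2.resolve_left (by omega)
      exact tw ⊤ (key _ ⟨Or.inl (by show k ≤ q.lev.1; omega), Or.inr rfl⟩
        (Or.inl ⟨Or.inr h, h2.ge⟩))

theorem result (N : ℕ) : ∃ (P : Type) (_ : PartialOrder P), ChainComplete P ∧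
    (∀ A : Set P, IsAntichain (· ≤ ·) A → A.Finite) ∧
    ∀ n ≤ N, ∀ S : ℕ → Set P, S 0 = Set.univ → (∀ k < n, Good (S k) (S (k + 1))) →
      (S n).Infinite := by
  refine ⟨Pt (2 * N), inferInstance, cc _, fa _, fun n hn S h0 hS => ?_⟩
  have h1 : ∀ k ≤ n, A (2 * N) k ⊆ S k := by
    intro k
    induction k with
    | zero => intro _; rw [h0]; exact Set.subset_univ _
    | succ k ih => intro hk; exact step _ k (by omega) _ _ (ih (by omega)) (hS k (by omega))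
  refine Set.Infinite.mono (h1 n le_rfl) ?_
  refine Set.infinite_of_injective_forall_mem
    (f := fun m : ℕ => (⟨⟨N, by omega⟩, true, m⟩ : Pt (2 * N))) (fun a b h => by simpa using h) ?_
  intro m
  exact ⟨Or.inl hn, Or.inl (by show N + n ≤ 2 * N; omega)⟩

end Pool.Agent.Results.MP_be1d92_co.Unbdd
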