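import Mathlib

set_option autoImplicit false

namespace Pool.Agent.Results.MP_be1d92_co.Unbounded

/-- every maximal chain of the ordered set `R` containing `p` contains `q` -/
def Funnel {P : Type} [PartialOrder P] (R : Set P) (p q : P) : Prop :=
  ∀ C : Set P, Maximal (fun D : Set P => D ⊆ R ∧ IsChain (· ≤ ·) D) C → p ∈ C → q ∈ C

/-- every point of `R` is funneled through at least one point of `Q` -/
def Dominating {P : Type} [PartialOrder P] (R Q : Set P) : Prop :=
  Q ⊆ R ∧ ∀ p ∈ R, ∃ q ∈ Q, Funnel R p q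

inductive E (k : ℕ)
  | x (j : Fin k) (i : ℕ) (b : Bool)
  | s (j : Fin k)
  | m (j : Fin k)
  | e

open E

def le {k : ℕ} : E k → E k → Prop
  | x j i b, x j' i' b' => j.1 ≤ j'.1 ∧ i ≤ i' ∧ (j.1 = j'.1 → i = i' → b = b')
  | x j _ _, s j' => j.1 ≤ j'.1
  | x j _ _, m j' => j.1 ≤ j'.1
  | s j, s j' => j.1 ≤ j'.1
  | s j, m j' => j.1 ≤ j'.1
  | m j, m j' => j.1 = j'.1
  | e, m _ => True
  | e, e => True
  | _, _ => False

instance (k : ℕ) : PartialOrder (E k) where
  le := le
  le_refl a := by cases a <;> simp [le]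
  le_trans a b c := by cases a <;> cases b <;> cases c <;> simp only [le] <;> grind
  le_antisymm a b := by cases a <;> cases b <;> simp [le, Fin.ext_iff] <;> grind

lemma le_def {k : ℕ} {a b : E k} : a ≤ b ↔ le a b := Iff.rfl

lemma cmp {P : Type} [PartialOrder P] {R : Set P} {p q y : P} (h : Funnel R p q) (hp : p ∈ R)
    (hy : y ∈ R) (hc : p ≤ y ∨ y ≤ p) : q ≤ y ∨ y ≤ q := by
  obtain ⟨C, h1, h2⟩ := zorn_subset_nonempty {D : Set P | D ⊆ R ∧ IsChain (· ≤ ·) D}
    (fun c hc hch _ => ⟨⋃₀ c, ⟨Set.sUnion_subset fun D hD => (hc hD).1, by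
      rintro a ⟨A, hA, ha⟩ b ⟨B, hB, hb⟩ hab
      rcases hch.total hA hB with h | h
      · exact (hc hB).2 (h ha) hb hab
      · exact (hc hA).2 ha (h hb) hab⟩, fun D hD => Set.subset_sUnion_of_mem hD⟩) {p, y}
    ⟨by rintro z (rfl | rfl) <;> assumption, by
      rintro a (rfl | rfl) b (rfl | rfl) hab
      · exact absurd rfl hab
      · exact hc
      · exact hc.symm
      · exact absurd rfl hab⟩
  exact h2.1.2.total (h C h2 (h1 (Or.inl rfl))) (h1 (Or.inr rfl))

def Inv {k : ℕ} (J : ℕ) (R : Set (E k)) : Prop :=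
  (∀ j i b, j.1 ≤ J → x j i b ∈ R) ∧ (∀ j, m j ∈ R) ∧ e ∈ R

lemma step {k J : ℕ} (hJ : J + 1 < k) {R Q : Set (E k)} (h : Inv (J + 1) R)
    (hQ : Dominating R Q) : Inv J Q := by
  obtain ⟨h1, h2, h3⟩ := h
  refine ⟨fun j i b hj => ?_, fun j => ?_, ?_⟩
  · have hp := h1 j i b (by omega)
    obtain ⟨q, hq, hf⟩ := hQ.2 _ hp
    have a1 := cmp hf hp hp (Or.inl le_rfl)
    have a2 := cmp hf hp (h2 j) (Or.inl (by simp [le_def, le]))
    have a3 := cmp hf hp (h1 ⟨j.1 + 1, by omega⟩ i true (by simpa using hj))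
      (Or.inl (by simp [le_def, le]))
    cases q with
    | x j' i' b' =>
      simp only [le_def, le] at a1 a2 a3
      by_cases hh : j'.1 = j.1 ∧ i' = i
      · obtain rfl : j' = j := Fin.ext hh.1
        obtain rfl := hh.2
        obtain rfl : b' = b := by grind
        exact hq
      · have a4 := cmp hf hp (h1 j' i' (!b') (by grind)) (Or.inr (by simp only [le_def, le]; grind))
        simp [le_def, le] at a4
    | s j' => simp only [le_def, le] at a2 a3; grind
    | m j' => simp only [le_def, le] at a2 a3; grind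
    | e => simp [le_def, le] at a1
  · obtain ⟨q, hq, hf⟩ := hQ.2 _ (h2 j)
    have a1 := cmp hf (h2 j) (h2 j) (Or.inl le_rfl)
    have a2 := cmp hf (h2 j) h3 (Or.inr (by simp [le_def, le]))
    have a3 := cmp hf (h2 j) (h1 ⟨0, by omega⟩ 0 true (by simp)) (Or.inr (by simp [le_def, le]))
    cases q with
    | m j' =>
      obtain rfl : j' = j := by simp only [le_def, le] at a1; exact Fin.ext (by omega)
      exact hq
    | e => simp [le_def, le] at a3
    | _ => simp [le_def, le] at a2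
  · obtain ⟨q, hq, hf⟩ := hQ.2 _ h3
    have a1 := cmp hf h3 h3 (Or.inl le_rfl)
    have a2 := cmp hf h3 (h2 ⟨0, by omega⟩) (Or.inl (by simp [le_def, le]))
    have a3 := cmp hf h3 (h2 ⟨1, by omega⟩) (Or.inl (by simp [le_def, le]))
    cases q with
    | m j' => simp only [le_def, le] at a2 a3; omega
    | e => exact hq
    | _ => simp [le_def, le] at a1

def rk {k : ℕ} : E k → ℕ ×ₗ ℕ
  | x j i _ => toLex (0, j.1 + i)
  | s j => toLex (1, j.1)
  | m _ => toLex (2, 0)
  | e => toLex (0, 0)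

lemma rk_mono {k : ℕ} : StrictMono (rk : E k → ℕ ×ₗ ℕ) := by
  intro a b h
  rw [lt_iff_le_not_ge] at h
  cases a <;> cases b <;> simp only [le_def, le] at h <;> simp [rk, Prod.Lex.lt_iff] <;> grind

def col {k : ℕ} : E k → Fin 4 × Option (Fin k) × Bool
  | x j _ b => (0, some j, b)
  | s j => (1, some j, true)
  | m j => (2, some j, true)
  | e => (3, none, true)

lemma lub {k : ℕ} (C : Set (E k)) (hne : C.Nonempty) (hC : IsChain (· ≤ ·) C) :
    ∃ u, IsLUB C u := by
  have ht : ∀ a ∈ C, ∀ b ∈ C, le a b ∨ le b a := fun a ha b hb => hC.total ha hb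
  by_cases h1 : ∃ j, m j ∈ C
  · obtain ⟨j, hj⟩ := h1
    refine ⟨_, IsGreatest.isLUB ⟨hj, fun a ha => ?_⟩⟩
    have := ht a ha _ hj
    cases a <;> simp only [le_def, le] at this ⊢ <;> grind
  by_cases h2 : {j | s j ∈ C}.Nonempty
  · obtain ⟨j, hj, hm⟩ := Set.exists_max_image _ (fun j : Fin k => j.1) (Set.toFinite _) h2
    refine ⟨_, IsGreatest.isLUB ⟨hj, fun a ha => ?_⟩⟩
    have := ht a ha _ hj
    cases a with
    | s j' => exact hm j' ha
    | m j' => exact absurd ⟨_, ha⟩ h1
    | _ => simpa [le_def, le] using this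
  by_cases h3 : e ∈ C
  · refine ⟨_, IsGreatest.isLUB ⟨h3, fun a ha => ?_⟩⟩
    have := ht a ha _ h3
    cases a with
    | m j' => exact absurd ⟨_, ha⟩ h1
    | _ => simpa [le_def, le] using this
  have h4 : ∀ a ∈ C, ∃ j i b, a = x j i b := fun a ha => by
    cases a with
    | x j i b => exact ⟨j, i, b, rfl⟩
    | s j => exact absurd ⟨j, ha⟩ h2
    | m j => exact absurd ⟨j, ha⟩ h1
    | e => exact absurd ha h3
  by_cases h5 : ∃ n, ∀ j i b, x j i b ∈ C → i < n
  · obtain ⟨n, hn⟩ := h5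
    have hf : C.Finite := by
      refine (Set.finite_range fun p : Fin k × Fin n × Bool => x p.1 p.2.1.1 p.2.2).subset
        fun a ha => ?_
      obtain ⟨j, i, b, rfl⟩ := h4 a ha
      exact ⟨(j, ⟨i, hn j i b ha⟩, b), rfl⟩
    obtain ⟨u, hu⟩ := hf.exists_maximal hne
    exact ⟨u, IsGreatest.isLUB ⟨hu.1, fun a ha => (ht a ha u hu.1).elim id (hu.2 ha)⟩⟩
  · push Not at h5
    obtain ⟨j, ⟨i, b, hj⟩, hm⟩ := Set.exists_max_image {j | ∃ i b, x j i b ∈ C}
      (fun j : Fin k => j.1) (Set.toFinite _) (by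
        obtain ⟨j, i, b, h, -⟩ := h5 0
        exact ⟨j, i, b, h⟩)
    refine ⟨s j, fun a ha => ?_, fun u hu => ?_⟩
    · obtain ⟨j', i', b', rfl⟩ := h4 a ha
      exact hm j' ⟨i', b', ha⟩
    · have a1 := hu hj
      cases u with
      | x j' i' b' =>
        obtain ⟨j2, i2, b2, h, h'⟩ := h5 (i' + 1)
        have := hu h
        simp only [le_def, le] at this
        omega
      | s j' => exact a1
      | m j' => exact a1
      | e => exact a1

theorem result : ∀ N : ℕ, ∃ (P : Type) (_ : PartialOrder P),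
    (∀ C : Set P, C.Nonempty → IsChain (· ≤ ·) C → (∃ u, IsLUB C u) ∧ ∃ l, IsGLB C l) ∧
    (∀ A : Set P, IsAntichain (· ≤ ·) A → A.Finite) ∧
    ∀ n ≤ N, ∀ S : ℕ → Set P, S 0 = Set.univ → (∀ t < n, Dominating (S t) (S (t + 1))) →
      (S n).Infinite := by
  intro N
  refine ⟨E (N + 1), inferInstance, fun C hne hC => ⟨lub C hne hC, ?_⟩, fun A hA => ?_,
    fun n hn S h0 hS => ?_⟩
  · have := (rk_mono (k := N + 1)).wellFoundedLT
    obtain ⟨l, h1, h2⟩ := (wellFounded_lt (α := E (N + 1))).has_min C hne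
    exact ⟨l, IsLeast.isGLB ⟨h1, fun a ha => (hC.total h1 ha).elim id fun h =>
      (h.eq_or_lt.resolve_right (h2 a ha)).ge⟩⟩
  · refine Set.Finite.of_finite_image (f := col) (Set.toFinite _) fun a ha b hb hab => ?_
    by_contra hne
    have a1 := hA ha hb hne
    have a2 := hA hb ha (Ne.symm hne)
    cases a <;> cases b <;> simp [col] at hab <;> simp [le_def, le] at a1 a2 <;> grind
  · have key : ∀ t ≤ n, Inv (N - t) (S t) := by
      intro t
      induction t with
      | zero => intro _; rw [h0]; exact ⟨fun _ _ _ _ => trivial, fun _ => trivial, trivial⟩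
      | succ t ih =>
        intro ht
        have := ih (by omega)
        rw [show N - t = N - (t + 1) + 1 by omega] at this
        exact step (by omega) this (hS t (by omega))
    exact Set.infinite_of_injective_forall_mem (f := fun i => x (0 : Fin (N + 1)) i true)
      (fun a b h => by simpa using h) fun i => (key n le_rfl).1 0 i true (by simp)

end Pool.Agent.Results.MP_be1d92_co.Unbounded
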